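import Mathlib

namespace Pool.Agent.P.MP_7b3100_nt

/-- ordered partial products `g (m-1) * ... * g 0` -/
def cp {G : Type*} [Monoid G] (g : ℕ → G) : ℕ → G
  | 0 => 1
  | m + 1 => g m * cp g m

lemma cp_add {G : Type*} [Monoid G] (g : ℕ → G) (t L : ℕ) (h : ∀ i < L, g (t + i) = g i) :
    ∀ m ≤ L, cp g (t + m) = cp g m * cp g t := by
  intro m hm
  induction m with
  | zero => simp [cp]
  | succ m ih =>
    rw [← add_assoc, cp, cp, ih (by omega), h m (by omega), mul_assoc]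

/-- a recurrent word in a finite group has a nonempty initial segment with product one -/
theorem exists_cp_eq_one {G : Type*} [Group G] [Finite G] (g : ℕ → G)
    (h : ∀ L, ∃ t, 1 ≤ t ∧ ∀ i < L, g (t + i) = g i) : ∃ m, 1 ≤ m ∧ cp g m = 1 := by
  choose τ hτ1 hτ using h
  let S : ℕ → ℕ := fun j => Nat.rec 0 (fun _ s => τ s + s) j
  have hS : ∀ j, S (j + 1) = τ (S j) + S j := fun j => rfl
  have hmono : StrictMono S := strictMono_nat_of_lt_succ fun j => by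
    rw [hS]; have := hτ1 (S j); omega
  have key : ∀ a d, cp g (S (a + d)) = cp g (S a) * cp g (S (a + d) - S a) := by
    intro a d
    induction d with
    | zero => simp [cp]
    | succ d ih =>
      have hle : S a ≤ S (a + d) := hmono.monotone (by omega)
      rw [← add_assoc, hS, cp_add g _ _ (hτ (S (a + d))) _ le_rfl, Nat.add_sub_assoc hle,
        cp_add g _ _ (hτ (S (a + d))) _ (Nat.sub_le _ _), ← mul_assoc, ← ih]
  obtain ⟨a, b, hab, he⟩ := Finite.exists_ne_map_eq_of_infinite (fun j => cp g (S j))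
  wlog hlt : a < b generalizing a b
  · exact this b a hab.symm he.symm (by omega)
  obtain ⟨d, rfl⟩ := Nat.exists_eq_add_of_le hlt.le
  refine ⟨S (a + d) - S a, by have := hmono hlt; omega, ?_⟩
  have := key a d
  have he' : cp g (S a) = cp g (S (a + d)) := he
  rw [← he'] at this
  exact (mul_eq_left.mp this.symm)

/-- affine recursion modulo a prime with recurrent coefficients returns to its start -/
theorem exists_return {q : ℕ} [Fact q.Prime] (μ v x : ℕ → ZMod q) (hμ : ∀ i, μ i ≠ 0)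
    (hx : ∀ i, x (i + 1) = μ i * x i + v i)
    (h : ∀ L, ∃ t, 1 ≤ t ∧ ∀ i < L, μ (t + i) = μ i ∧ v (t + i) = v i) (s : ℕ) :
    ∃ m, 1 ≤ m ∧ x (s + m) = x s := by
  let g : ℕ → Equiv.Perm (ZMod q) := fun i =>
    (Equiv.mulLeft₀ (μ (s + i)) (hμ _)).trans (Equiv.addRight (v (s + i)))
  have hg : ∀ i z, g i z = μ (s + i) * z + v (s + i) := fun i z => rfl
  obtain ⟨m, hm, h1⟩ := exists_cp_eq_one g (by
    intro L
    obtain ⟨t, ht, hti⟩ := h (s + L)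
    refine ⟨t, ht, fun i hi => ?_⟩
    ext z
    have := hti (s + i) (by omega)
    rw [hg, hg, show s + (t + i) = t + (s + i) by ring, this.1, this.2])
  have hc : ∀ m, cp g m (x s) = x (s + m) := by
    intro m
    induction m with
    | zero => simp [cp]
    | succ m ih => rw [cp, Equiv.Perm.mul_apply, ih, hg, ← add_assoc, hx]
  exact ⟨m, hm, by rw [← hc, h1]; rfl⟩

lemma floor_step (b : ℕ) (α : ℝ) (m l : ℕ) :
    ⌊(b : ℝ) ^ (m + l) * α⌋ =
      (b : ℤ) ^ l * ⌊(b : ℝ) ^ m * α⌋ + ⌊(b : ℝ) ^ l * Int.fract ((b : ℝ) ^ m * α)⌋ := by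
  have : (b : ℝ) ^ (m + l) * α =
      (((b : ℤ) ^ l * ⌊(b : ℝ) ^ m * α⌋ : ℤ) : ℝ) + (b : ℝ) ^ l * Int.fract ((b : ℝ) ^ m * α) := by
    rw [Int.fract]; push_cast; ring
  rw [this, Int.floor_intCast_add]

lemma natAbs_floor_bounds (y : ℝ) :
    |y| - 1 ≤ ((⌊y⌋.natAbs : ℕ) : ℝ) ∧ ((⌊y⌋.natAbs : ℕ) : ℝ) ≤ |y| + 1 := by
  have h1 := Int.floor_le y
  have h2 := Int.lt_floor_add_one y
  have h3 : ((⌊y⌋.natAbs : ℕ) : ℝ) = |(⌊y⌋ : ℝ)| := by
    rw [← Int.cast_natCast, Int.natCast_natAbs, Int.cast_abs]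
  rw [h3]
  constructor
  · have := abs_sub_abs_le_abs_sub y (⌊y⌋ : ℝ)
    have h4 : |y - ⌊y⌋| ≤ 1 := by rw [abs_le]; constructor <;> linarith
    linarith
  · have := abs_sub_abs_le_abs_sub (⌊y⌋ : ℝ) y
    have h4 : |(⌊y⌋ : ℝ) - y| ≤ 1 := by rw [abs_le]; constructor <;> linarith
    linarith

/-- the absolute values of the integer parts are eventually large and strictly increasing -/
lemma eventually_grow (b : ℕ) (hb : 2 ≤ b) (α : ℝ) (hα : α ≠ 0) (B : ℕ) :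
    ∃ M : ℕ, ∀ m, M ≤ m → B < ⌊(b : ℝ) ^ m * α⌋.natAbs ∧
      ∀ m', m < m' → ⌊(b : ℝ) ^ m * α⌋.natAbs < ⌊(b : ℝ) ^ m' * α⌋.natAbs := by
  have hb1 : (1 : ℝ) < b := by exact_mod_cast (by omega : 1 < b)
  have hb2 : (2 : ℝ) ≤ b := by exact_mod_cast hb
  have ha : 0 < |α| := abs_pos.mpr hα
  obtain ⟨M, hM⟩ := pow_unbounded_of_one_lt (((B : ℝ) + 3) / |α|) hb1
  refine ⟨M, fun m hm => ?_⟩
  have hpos : ∀ k : ℕ, (0 : ℝ) < (b : ℝ) ^ k := fun k => by positivity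
  have habs : ∀ k : ℕ, |(b : ℝ) ^ k * α| = (b : ℝ) ^ k * |α| := fun k => by
    rw [abs_mul, abs_of_pos (hpos k)]
  have h1 : (B : ℝ) + 3 < (b : ℝ) ^ m * |α| := by
    rw [div_lt_iff₀ ha] at hM
    have : (b : ℝ) ^ M ≤ (b : ℝ) ^ m := pow_le_pow_right₀ hb1.le hm
    nlinarith
  have hB : (0 : ℝ) ≤ B := Nat.cast_nonneg B
  obtain ⟨l1, u1⟩ := natAbs_floor_bounds ((b : ℝ) ^ m * α)
  rw [habs] at l1 u1
  refine ⟨by exact_mod_cast (by linarith : (B : ℝ) < ((⌊(b : ℝ) ^ m * α⌋.natAbs : ℕ) : ℝ)),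
    fun m' hm' => ?_⟩
  obtain ⟨l2, -⟩ := natAbs_floor_bounds ((b : ℝ) ^ m' * α)
  rw [habs] at l2
  have h2 : (b : ℝ) ^ (m + 1) ≤ (b : ℝ) ^ m' := pow_le_pow_right₀ hb1.le hm'
  have h3 : 2 * ((b : ℝ) ^ m * |α|) ≤ (b : ℝ) ^ m' * |α| := by
    rw [pow_succ] at h2
    have := hpos m
    nlinarith [mul_le_mul_of_nonneg_right h2 ha.le, mul_pos this ha]
  exact_mod_cast (by linarith :
    ((⌊(b : ℝ) ^ m * α⌋.natAbs : ℕ) : ℝ) < ((⌊(b : ℝ) ^ m' * α⌋.natAbs : ℕ) : ℝ))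

end Pool.Agent.P.MP_7b3100_nt
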